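import Mathlib
import Pool.Agent.Lib.MP_9009ba_co.PGroupC
import Pool.Agent.Lib.MP_9009ba_co.QuantPrimes

/-!
# Small graphs for groups with many generators

For every `ε > 0` there is `N` such that every finite group `G` that cannot be generated by fewer
than `N` elements is the automorphism group of a graph with fewer than `ε |G|` vertices.
-/

namespace Pool.Agent.Results.MP_9009ba_co.ManyGenerators

open Pool.Agent.Lib.MP_9009ba_co

universe u w

/-- The graph `X` represents the group `G`: the automorphism group of `X` is isomorphic to `G`. -/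
def Represents {V : Type w} (X : SimpleGraph V) (G : Type u) [Group G] : Prop :=
  Nonempty ((X ≃g X) ≃* G)

/-- The minimum number of vertices of a graph representing `G`. -/
noncomputable def minVertices (G : Type u) [Group G] : ℕ :=
  sInf {n : ℕ | ∃ X : SimpleGraph (Fin n), Represents X G}

/-- The case of many prime divisors. -/
theorem many_primes (ε : ℝ) (hε : 0 < ε) :
    ∃ N : ℕ, ∀ (G : Type u) [Group G] [Finite G], N ≤ (Nat.card G).primeFactors.card →
      ∃ (n : ℕ) (X : SimpleGraph (Fin n)), Represents X G ∧ (n : ℝ) < ε * (Nat.card G : ℝ) := by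
  obtain ⟨h₀, hh₀⟩ := exists_nat_gt (210 / ε)
  set h := max h₀ 8 with hh
  have h8 : 8 ≤ h := le_max_right _ _
  have hlarge : 210 / ε < (h : ℝ) := lt_of_lt_of_le hh₀ (by exact_mod_cast le_max_left h₀ 8)
  refine ⟨13 + h, fun G _ _ hω => ?_⟩
  have hcard : 13 ≤ ((Nat.card G).primeFactors.filter (fun p => h ≤ p)).card := by
    have hsum := Finset.card_filter_add_card_filter_not (s := (Nat.card G).primeFactors)
      (p := fun p => h ≤ p)
    have hsmall : ((Nat.card G).primeFactors.filter (fun p => ¬ h ≤ p)).card ≤ h := by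
      calc _ ≤ (Finset.range h).card := by
            apply Finset.card_le_card
            intro p hp
            rw [Finset.mem_filter] at hp
            rw [Finset.mem_range]
            omega
        _ = h := Finset.card_range h
    omega
  obtain ⟨n, X, hX, hn, hbig⟩ := quantitative_primes G h8 hcard
  refine ⟨n, X, hX, ?_⟩
  have hhpos : (0 : ℝ) < h := by
    have : (8 : ℝ) ≤ h := by exact_mod_cast h8
    linarith
  have h1 : (h : ℝ) * (n : ℝ) ≤ 105 * (Nat.card G : ℝ) + 71 * (h : ℝ) := by exact_mod_cast hn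
  have h2 : (h : ℝ) * (h : ℝ) ≤ (Nat.card G : ℝ) := by exact_mod_cast hbig
  have h3 : 210 < ε * (h : ℝ) := by
    rw [div_lt_iff₀ hε] at hlarge
    linarith
  have h8' : (8 : ℝ) ≤ h := by exact_mod_cast h8
  have hG : (0 : ℝ) < (Nat.card G : ℝ) := by exact_mod_cast Nat.card_pos
  have h5 : (h : ℝ) * (n : ℝ) < h * (ε * (Nat.card G : ℝ)) := by
    have k1 : 210 * (Nat.card G : ℝ) < (ε * h) * (Nat.card G : ℝ) := mul_lt_mul_of_pos_right h3 hG
    have k2 : 8 * (h : ℝ) ≤ (Nat.card G : ℝ) := by nlinarith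
    nlinarith
  exact lt_of_mul_lt_mul_left h5 hhpos.le

/-- The case of a large elementary abelian subgroup. -/
theorem elementary (ε : ℝ) (hε : 0 < ε) :
    ∃ R : ℕ, ∀ (G : Type u) [Group G] [Finite G],
      (∃ (p : ℕ) (_ : Fact p.Prime) (ι : Multiplicative (EE p R) →* G), Function.Injective ι) →
      ∃ (n : ℕ) (X : SimpleGraph (Fin n)), Represents X G ∧ (n : ℝ) < ε * (Nat.card G : ℝ) := by
  obtain ⟨m₀, hm₀⟩ := exists_nat_gt (296 / ε)
  set m := max m₀ 1 with hm
  have hm1 : 1 ≤ m := le_max_right _ _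
  have hlarge : 296 / ε < (m : ℝ) := lt_of_lt_of_le hm₀ (by exact_mod_cast le_max_left m₀ 1)
  refine ⟨3 * (2 * m) + 4, fun G _ _ hG => ?_⟩
  obtain ⟨p, hp, ι, hι⟩ := hG
  obtain ⟨n, X, hX, hn, hcard⟩ := exists_graph_elementary (K := 2 * m) hι le_rfl
  refine ⟨n, X, hX, ?_⟩
  have h1 : 2 ^ (2 * m) ≤ Nat.card G :=
    (Nat.pow_le_pow_right (by norm_num) (by omega)).trans hcard
  have h2 : 2 ^ (2 * m) * n ≤ (296 * m) * Nat.card G := by
    calc 2 ^ (2 * m) * n ≤ 3 * (11 + 24 * (2 * m)) * Nat.card G +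
          2 ^ (2 * m) * (23 + 48 * (2 * m)) := hn
      _ ≤ 3 * (11 + 24 * (2 * m)) * Nat.card G + Nat.card G * (23 + 48 * (2 * m)) := by
          have := Nat.mul_le_mul_right (23 + 48 * (2 * m)) h1
          omega
      _ = (56 + 240 * m) * Nat.card G := by ring
      _ ≤ (296 * m) * Nat.card G := Nat.mul_le_mul_right _ (by omega)
  have h3 : m ≤ 2 ^ m := Nat.lt_two_pow_self.le
  have h4 : 2 ^ m * n ≤ 296 * Nat.card G := by
    have : 2 ^ m * (2 ^ m * n) ≤ 2 ^ m * (296 * Nat.card G) := by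
      calc 2 ^ m * (2 ^ m * n) = 2 ^ (2 * m) * n := by rw [two_mul, pow_add]; ring
        _ ≤ (296 * m) * Nat.card G := h2
        _ ≤ (296 * 2 ^ m) * Nat.card G := Nat.mul_le_mul_right _ (by omega)
        _ = 2 ^ m * (296 * Nat.card G) := by ring
    exact Nat.le_of_mul_le_mul_left this (by positivity)
  have h5 : m * n ≤ 296 * Nat.card G := (Nat.mul_le_mul_right n h3).trans h4
  have h6 : (m : ℝ) * (n : ℝ) ≤ 296 * (Nat.card G : ℝ) := by exact_mod_cast h5
  have h7 : 296 < ε * (m : ℝ) := by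
    rw [div_lt_iff₀ hε] at hlarge
    linarith
  have hmpos : (0 : ℝ) < m := by exact_mod_cast hm1
  have hGpos : (0 : ℝ) < (Nat.card G : ℝ) := by exact_mod_cast Nat.card_pos
  have h8 : (m : ℝ) * (n : ℝ) < m * (ε * (Nat.card G : ℝ)) := by
    have := mul_lt_mul_of_pos_right h7 hGpos
    nlinarith
  exact lt_of_mul_lt_mul_left h8 hmpos.le

/-- **(D) implies (S).**  For every `ε > 0` there is `N` such that every finite group `G` whose
minimum number of generators is at least `N` satisfies `v(G) < ε |G|`. -/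
theorem result (ε : ℝ) (hε : 0 < ε) :
    ∃ N : ℕ, ∀ (G : Type u) [Group G] [Finite G], N ≤ Group.rank G →
      (∃ (n : ℕ) (X : SimpleGraph (Fin n)), Represents X G) ∧
        (minVertices G : ℝ) < ε * (Nat.card G : ℝ) := by
  obtain ⟨M, hM⟩ := many_primes.{u} ε hε
  obtain ⟨R, hR⟩ := elementary.{u} ε hε
  refine ⟨M * (3 * (R * R) + R) + 1, fun G _ _ hG => ?_⟩
  have key : ∃ (n : ℕ) (X : SimpleGraph (Fin n)), Represents X G ∧
      (n : ℝ) < ε * (Nat.card G : ℝ) := by
    by_cases hω : M ≤ (Nat.card G).primeFactors.card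
    · exact hM G hω
    · apply hR G
      apply exists_elementary_of_rank R
      have := Nat.mul_le_mul_right (3 * (R * R) + R) (Nat.le_of_lt (not_le.mp hω))
      omega
  obtain ⟨n, X, hX, hn⟩ := key
  refine ⟨⟨n, X, hX⟩, ?_⟩
  have hmin : minVertices G ≤ n := Nat.sInf_le ⟨X, hX⟩
  have h4 : (minVertices G : ℝ) ≤ n := by exact_mod_cast hmin
  linarith

end Pool.Agent.Results.MP_9009ba_co.ManyGenerators
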