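import Mathlib
import Pool.Agent.Lib.MP_9009ba_co.Assembly

/-!
# Small graphs for groups with many prime divisors

For every `ε > 0` there is `N` such that every finite group `G` whose order has at least `N`
distinct prime divisors is the automorphism group of a graph with fewer than `ε |G|` vertices.
-/

namespace Pool.Agent.Results.MP_9009ba_co.ManyPrimes

open Pool.Agent.Lib.MP_9009ba_co

universe u w

/-- The graph `X` represents the group `G`: the automorphism group of `X` is isomorphic to `G`. -/
def Represents {V : Type w} (X : SimpleGraph V) (G : Type u) [Group G] : Prop :=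
  Nonempty ((X ≃g X) ≃* G)

/-- The minimum number of vertices of a graph representing `G`. -/
noncomputable def minVertices (G : Type u) [Group G] : ℕ :=
  sInf {n : ℕ | ∃ X : SimpleGraph (Fin n), Represents X G}

/-- A quantitative form: if the order of `G` has at least `13` prime divisors `≥ h ≥ 8`, then `G`
is represented by a graph with at most `105 |G| / h + 71` vertices. -/
theorem quantitative (G : Type u) [Group G] [Finite G] {h : ℕ} (h8 : 8 ≤ h)
    (hcard : 13 ≤ ((Nat.card G).primeFactors.filter (fun p => h ≤ p)).card) :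
    ∃ (n : ℕ) (X : SimpleGraph (Fin n)), Represents X G ∧ h * n ≤ 105 * Nat.card G + 71 * h ∧
      h * h ≤ Nat.card G := by
  obtain ⟨c, hc⟩ := exists_adm h8 hcard
  have hgoodS : ∀ a, ∃ s, Good (cyc c) s ∧ Good (cyc c) (s * c a) := by
    intro a
    obtain ⟨s, hs, hs'⟩ := half_lemma hc.half (c a)
    exact ⟨s, hs, hs'⟩
  choose s hs hs' using hgoodS
  let S : List G := [s 0, s 0 * c 0, s 1, s 1 * c 1, s 2, s 2 * c 2]
  have hS : ∀ x ∈ S, Good (cyc c) x := by
    intro x hx
    simp only [S, List.mem_cons, List.not_mem_nil, or_false] at hx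
    rcases hx with rfl | rfl | rfl | rfl | rfl | rfl
    · exact hs 0
    · exact hs' 0
    · exact hs 1
    · exact hs' 1
    · exact hs 2
    · exact hs' 2
  have hmemS : ∀ a, s a ∈ S ∧ s a * c a ∈ S := by
    intro a
    fin_cases a <;> simp [S]
  have hHS : ∀ a, cyc c a ≤ Subgroup.closure {x | x ∈ S} := by
    intro a
    change Subgroup.zpowers (c a) ≤ _
    rw [Subgroup.zpowers_le]
    have e : c a = (s a)⁻¹ * (s a * c a) := by group
    rw [e]
    exact mul_mem (inv_mem (Subgroup.subset_closure (hmemS a).1))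
      (Subgroup.subset_closure (hmemS a).2)
  have hcardH : ∀ a, Nat.card (cyc c a) = orderOf (c a) := fun a => Nat.card_zpowers (c a)
  have hdvd : orderOf (c 0) * orderOf (c 1) ∣ Nat.card G := by
    apply Nat.Coprime.mul_dvd_of_dvd_of_dvd
    · exact (Nat.coprime_primes (hc.prime 0) (hc.prime 1)).2 hc.distinct
    · exact orderOf_dvd_natCard (c 0)
    · exact orderOf_dvd_natCard (c 1)
  have hpos : 0 < Nat.card G := Nat.card_pos
  have hbig : h * h ≤ Nat.card G :=
    (Nat.mul_le_mul (hc.large 0) (hc.large 1)).trans (Nat.le_of_dvd hpos hdvd)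
  have hne : ∀ a, cyc c a ≠ ⊤ := by
    intro a htop
    have h1 : orderOf (c a) = Nat.card G := by
      rw [← hcardH a, htop, Subgroup.card_top]
    -- the order of the group would be prime
    have hp := hc.prime a
    rw [h1] at hp
    have d0 := (Nat.dvd_prime hp).1 (orderOf_dvd_natCard (c 0))
    have d1 := (Nat.dvd_prime hp).1 (orderOf_dvd_natCard (c 1))
    have n0 := (hc.prime 0).one_lt
    have n1 := (hc.prime 1).one_lt
    have := hc.distinct
    omega
  obtain ⟨Y, hY⟩ := exists_graph_of_data (cyc c) hc.indep hne S hS hHS (closure_of_half hc.half)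
  have hlen : S.length = 6 := rfl
  refine ⟨_, Y, hY, ?_, hbig⟩
  rw [hlen]
  have hcos := card_cos (cyc c) (h := h) (fun a => by rw [hcardH a]; exact hc.large a)
  calc h * ((11 + 4 * 6) * Nat.card (Cos (cyc c)) + (2 * (11 + 4 * 6) + 1))
      = 35 * (h * Nat.card (Cos (cyc c))) + 71 * h := by ring
    _ ≤ 35 * (3 * Nat.card G) + 71 * h := by
        have := Nat.mul_le_mul_left 35 hcos
        omega
    _ = 105 * Nat.card G + 71 * h := by ring

/-- **(P) implies (S).**  For every `ε > 0` there is `N` such that every finite group `G` whose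
order has at least `N` distinct prime divisors satisfies `v(G) < ε |G|`. -/
theorem result (ε : ℝ) (hε : 0 < ε) :
    ∃ N : ℕ, ∀ (G : Type u) [Group G] [Finite G], N ≤ (Nat.card G).primeFactors.card →
      (∃ (n : ℕ) (X : SimpleGraph (Fin n)), Represents X G) ∧
        (minVertices G : ℝ) < ε * (Nat.card G : ℝ) := by
  obtain ⟨h₀, hh₀⟩ := exists_nat_gt (210 / ε)
  set h := max h₀ 8 with hh
  have h8 : 8 ≤ h := le_max_right _ _
  have hlarge : 210 / ε < (h : ℝ) := lt_of_lt_of_le hh₀ (by exact_mod_cast le_max_left h₀ 8)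
  refine ⟨13 + h, fun G _ _ hω => ?_⟩
  have hcard : 13 ≤ ((Nat.card G).primeFactors.filter (fun p => h ≤ p)).card := by
    have hsum := Finset.card_filter_add_card_filter_not (s := (Nat.card G).primeFactors)
      (p := fun p => h ≤ p)
    have hsmall : ((Nat.card G).primeFactors.filter (fun p => ¬ h ≤ p)).card ≤ h := by
      calc _ ≤ (Finset.range h).card := by
            apply Finset.card_le_card
            intro p hp
            rw [Finset.mem_filter] at hp
            rw [Finset.mem_range]
            omega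
        _ = h := Finset.card_range h
    omega
  obtain ⟨n, X, hX, hn, hbig⟩ := quantitative G h8 hcard
  refine ⟨⟨n, X, hX⟩, ?_⟩
  have hmin : minVertices G ≤ n := Nat.sInf_le ⟨X, hX⟩
  have hhpos : (0 : ℝ) < h := by
    have : (8 : ℝ) ≤ h := by exact_mod_cast h8
    linarith
  have h1 : (h : ℝ) * (n : ℝ) ≤ 105 * (Nat.card G : ℝ) + 71 * (h : ℝ) := by exact_mod_cast hn
  have h2 : (h : ℝ) * (h : ℝ) ≤ (Nat.card G : ℝ) := by exact_mod_cast hbig
  have h3 : 210 < ε * (h : ℝ) := by
    rw [div_lt_iff₀ hε] at hlarge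
    linarith
  have h8' : (8 : ℝ) ≤ h := by exact_mod_cast h8
  have h4 : (minVertices G : ℝ) ≤ n := by exact_mod_cast hmin
  have hG : (0 : ℝ) < (Nat.card G : ℝ) := by exact_mod_cast Nat.card_pos
  have h5 : (h : ℝ) * (n : ℝ) < h * (ε * (Nat.card G : ℝ)) := by
    have k1 : 210 * (Nat.card G : ℝ) < (ε * h) * (Nat.card G : ℝ) := mul_lt_mul_of_pos_right h3 hG
    have k2 : 8 * (h : ℝ) ≤ (Nat.card G : ℝ) := by nlinarith
    nlinarith
  have h6 : (n : ℝ) < ε * (Nat.card G : ℝ) := lt_of_mul_lt_mul_left h5 hhpos.le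
  linarith

end Pool.Agent.Results.MP_9009ba_co.ManyPrimes
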